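import Pool.Agent.V11101.TreeBasic

/-!
# A space with the Schur p-property and trivial dual, for every `0 < p < 1`
-/

open Set Filter Topology
open Pool.Agent.V11101.Tree

namespace Pool.Agent.Results.MP_86e52e_an.TrivialDual

theorem exists_branching {p : ℝ} (hp1 : p < 1) (M : ℝ) :
    ∃ n : ℕ, 0 < n ∧ M ≤ n * (1 / (2 * (n : ℝ))) ^ p := by
  have h1 : Tendsto (fun n : ℕ => (n : ℝ) ^ (1 - p)) atTop atTop :=
    (tendsto_rpow_atTop (by linarith)).comp tendsto_natCast_atTop_atTop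
  obtain ⟨n, hn, hn0⟩ := ((h1.eventually_ge_atTop (M * 2 ^ p)).and (eventually_gt_atTop 0)).exists
  refine ⟨n, hn0, ?_⟩
  have hn0' : (0 : ℝ) < n := by exact_mod_cast hn0
  have h2 : (n : ℝ) * (1 / (2 * (n : ℝ))) ^ p = (n : ℝ) ^ (1 - p) / 2 ^ p := by
    rw [one_div, Real.inv_rpow (by positivity), Real.mul_rpow (by norm_num) hn0'.le,
      Real.rpow_sub hn0', Real.rpow_one]
    have h3 : (0 : ℝ) < (n : ℝ) ^ p := Real.rpow_pos_of_pos hn0' _
    have h4 : (0 : ℝ) < (2 : ℝ) ^ p := Real.rpow_pos_of_pos (by norm_num) _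
    field_simp
  rw [h2, le_div_iff₀ (Real.rpow_pos_of_pos (by norm_num) _)]
  exact hn

/-- For every `0 < p < 1`, and for real and complex scalars, there is a nonzero quasi-Banach space
(with a `p`-norm) which has the Schur `p`-property and no nonzero continuous linear functional. -/
theorem result (𝕜 : Type) [RCLike 𝕜] (p : ℝ) (hp : 0 < p) (hp1 : p < 1) :
    ∃ (X : Type) (_ : AddCommGroup X) (_ : Module 𝕜 X) (N : X → ℝ),
      QuasiBanach 𝕜 X N ∧ (∀ x y, N (x + y) ^ p ≤ N x ^ p + N y ^ p) ∧ (∃ x : X, x ≠ 0) ∧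
      SchurP 𝕜 p X N ∧
      ∀ f : X →ₗ[𝕜] 𝕜, (∀ (u : ℕ → X) (x : X), Tendsto (fun n => N (u n - x)) atTop (𝓝 0) →
        Tendsto (fun n => f (u n)) atTop (𝓝 (f x))) → f = 0 := by
  choose N hN0 hN using fun k : ℕ => exists_branching hp1 ((k : ℝ) + 1)
  let S : Par p :=
    { N := N
      c := fun k => 1 / (2 * (N k : ℝ))
      hp := hp
      hp1 := hp1.le
      hc := fun k => by
        have : (0 : ℝ) < N k := by exact_mod_cast hN0 k
        positivity
      hB := hN }
  refine ⟨XX S 𝕜, inferInstance, inferInstance, qn, quasiBanach, fun x y => ?_, ?_, schurP, ?_⟩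
  · rw [qn_pow, qn_pow, qn_pow]
    exact norm_add_le x y
  · refine ⟨cmk (at' 0 (fun _ => (1 : 𝕜))), fun h => ?_⟩
    have h1 := root_norm (S := S) (𝕜 := 𝕜)
    rw [← norm_cmk, h, norm_zero] at h1
    linarith
  · intro f hf
    refine dual_trivial (S := S) (fun k => ?_) f ?_
    · have h1 : (N k : ℝ) ≠ 0 := by exact_mod_cast (hN0 k).ne'
      show (N k : ℝ) * (1 / (2 * (N k : ℝ))) ≤ 1 / 2
      refine le_of_eq ?_
      field_simp
    · refine continuous_iff_seqContinuous.2 fun u x hu => hf u x ?_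
      rw [tendsto_iff_norm_sub_tendsto_zero] at hu
      exact tendsto_qn.2 hu

end Pool.Agent.Results.MP_86e52e_an.TrivialDual
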